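import Pool.Agent.Helper4.SD.Spec
import Pool.Agent.Helper44.CC.DESC

/-! SD (helper4), part `DESR`: descent of a curve to an algebraically closed field. -/

set_option autoImplicit false

namespace Pool.Agent.Helper39.SD.DESR

open MvPolynomial Pool.Agent.Helper23.CC Pool.Agent.Helper23.WC Pool.Agent.Helper44.CC.Desc

theorem main : Pool.Agent.Helper4.SD.St_DESR := by
  classical
  intro K L _ _ _ _ n r s δ e H h
  obtain ⟨P, Q, i, j, c, x₀, y₀, h1, h2, h3, h4, h5, hd, h6⟩ := h
  -- normalize `x₀`, `y₀`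
  obtain ⟨x₁, y₁, h5', hd'⟩ : ∃ x₁ y₁ : L, (x₁ = 1 ∨ y₁ = 1) ∧
      ∀ l : Fin (n + 1), 1 ≤ (l : ℕ) → (l : ℕ) ≤ δ → x₁ * P l + y₁ * Q l = 0 := by
    rcases h5 with h5 | h5
    · refine ⟨1, y₀ / x₀, Or.inl rfl, fun l hl hl' => ?_⟩
      have := hd l hl hl'
      have e1 : 1 * P l + y₀ / x₀ * Q l = (x₀ * P l + y₀ * Q l) / x₀ := by
        field_simp
      rw [e1, this, zero_div]
    · refine ⟨x₀ / y₀, 1, Or.inr rfl, fun l hl hl' => ?_⟩
      have := hd l hl hl'
      have e1 : x₀ / y₀ * P l + 1 * Q l = (x₀ * P l + y₀ * Q l) / y₀ := by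
        field_simp
      rw [e1, this, zero_div]
  -- all coordinates
  set u : ((Fin (n + 1) ⊕ Fin (n + 1)) ⊕ (Σ i : Fin r, Fin (e i + 1))) ⊕ Bool → L :=
    Sum.elim (Sum.elim (Sum.elim P Q) (fun p => c p.1 p.2)) (fun b => if b then x₁ else y₁) with hu
  obtain ⟨x, hx⟩ := exists_point K L _ u
  have key : ∀ p q : MvPolynomial
      (((Fin (n + 1) ⊕ Fin (n + 1)) ⊕ (Σ i : Fin r, Fin (e i + 1))) ⊕ Bool) K,
      aeval u p = aeval u q → eval x p = eval x q := by
    intro p q hpq
    have := hx (p - q) (by rw [map_sub, hpq, sub_self])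
    rwa [map_sub, sub_eq_zero] at this
  have hbf : ∀ (R : Type) [CommRing R] (d : ℕ) (b : ℕ → R) (y z : R),
      bf d b y z = ∑ l : Fin (d + 1), b l * y ^ (l : ℕ) * z ^ (d - (l : ℕ)) := by
    intro R _ d b y z
    unfold bf
    rw [Finset.sum_range]
  refine ⟨fun l => x (.inl (.inl (.inl l))), fun l => x (.inl (.inl (.inr l))), i, j,
    fun i l => if h : l < e i + 1 then x (.inl (.inr ⟨i, ⟨l, h⟩⟩)) else 0,
    x (.inr true), x (.inr false), ?_, ?_, ?_, ?_, ?_, ?_,
    fun a y z => ?_⟩
  · have := key (X (.inl (.inl (.inl i)))) 1 (by simp [hu, h1])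
    simpa using this
  · have := key (X (.inl (.inl (.inl j)))) 0 (by simp [hu, h2])
    simpa using this
  · have := key (X (.inl (.inl (.inr i)))) 0 (by simp [hu, h3])
    simpa using this
  · have := key (X (.inl (.inl (.inr j)))) 1 (by simp [hu, h4])
    simpa using this
  · rcases h5' with h | h
    · left
      have := key (X (.inr true)) 1 (by simp [hu, h])
      have h' : x (.inr true) = 1 := by simpa using this
      rw [h']
      exact one_ne_zero
    · right
      have := key (X (.inr false)) 1 (by simp [hu, h])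
      have h' : x (.inr false) = 1 := by simpa using this
      rw [h']
      exact one_ne_zero
  · intro l hl hl'
    have := key (X (.inr true) * X (.inl (.inl (.inl l))) +
      X (.inr false) * X (.inl (.inl (.inr l)))) 0 (by simpa [hu] using hd' l hl hl')
    simpa using this
  · have h7 := h6 a (algebraMap K L y) (algebraMap K L z)
    set g : Fin (n + 1) ⊕ Fin r → MvPolynomial
        (((Fin (n + 1) ⊕ Fin (n + 1)) ⊕ (Σ i : Fin r, Fin (e i + 1))) ⊕ Bool) K :=
      Sum.elim (fun l => C y * X (.inl (.inl (.inl l))) + C z * X (.inl (.inl (.inr l))))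
        (fun i => ∑ l : Fin (e i + 1),
          X (.inl (.inr ⟨i, l⟩)) * C (y ^ (l : ℕ)) * C (z ^ (e i - (l : ℕ))))
      with hg
    have e1 : aeval u (aeval g (H a)) = aeval (Sum.elim
        (fun l => algebraMap K L y * P l + algebraMap K L z * Q l)
        fun i => bf (e i) (c i) (algebraMap K L y) (algebraMap K L z)) (H a) := by
      rw [← AlgHom.comp_apply]
      congr 1
      refine MvPolynomial.algHom_ext fun l => ?_
      rcases l with l | l
      · simp [hu, hg]
      · simp [hu, hg, hbf]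
    have e3 := key (aeval g (H a)) 0 (by rw [e1, h7, map_zero])
    rw [map_zero] at e3
    refine Eq.trans ?_ e3
    rw [ev_eq, ← AlgHom.comp_apply]
    congr 1
    refine MvPolynomial.algHom_ext fun l => ?_
    rcases l with l | l
    · simp [hg]
    · simp [hg, hbf]
      exact Finset.sum_congr rfl fun t _ => if_pos (Nat.lt_succ_iff.mp t.2)

end Pool.Agent.Helper39.SD.DESR
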