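import Pool.Agent.Helper4.SD.Spec

/-! SD (helper4), part `DIM`: the number of equations, from `St_HALL`. -/

set_option autoImplicit false

namespace Pool.Agent.Helper39.SD.DIM

theorem main (hHALL : Pool.Agent.Helper23.WC.St_HALL) : Pool.Agent.Helper4.SD.St_DIM := by
  intro K _ _ n r s e D H hH hD h0
  obtain ⟨ι, hι, -⟩ := hHALL K n r s e D H hH hD h0
  simpa using Fintype.card_le_of_injective ι hι

end Pool.Agent.Helper39.SD.DIM
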